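import Pool.Agent.H91.OP.Base
import Pool.Agent.H46.OP.Rel

/-!
# The pole at the edge: number fields with at most one exceptional prime suffice

`X` is a smooth projective variety of dimension `d` over a number field `K`, `0 ≤ m ≤ d`, and `V` is the
space `A^m(X) ⊗ ℚ` of the classes of the algebraic cycles of codimension `m` over the algebraic closure,
with the action of the absolute Galois group of `K`, or any finite dimensional representation of this
group. For a number field `F ⊇ K` the rank over `F` is the dimension of the space of the vectors fixed by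
the absolute Galois group of `F`, and the order of the pole of `L(H^{2m}(X_F), s)` at `m + 1` is the
integer `r` such that `(s - m - 1)^r L(s)` has a finite nonzero limit as `s → m + 1` along the reals, from
the right; the Euler product is taken over the primes outside an arbitrary finite set, and no
continuation is presupposed.

Let `S` be a finite set of primes of `K` (for instance the primes of bad reduction of `X`), `b` a bound
and `T` a finite extension of `K` (for instance a field over which `X` has semistable reduction and over
which the classes in `V` are defined). There are finitely many number fields `F ⊇ K` and integers `a_F`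
such that for ALL `X` the rank over `K` is the sum of the `a_F · rank over F` and the order of the pole
over `K` is the sum of the `a_F · order over F`, and such that every `F` is special: for some prime number
`p` there is a Galois extension `F'` of `F` which contains `T` and has a `p`-hyperelementary Galois group,
and all prime ideals `w` of `F` but at most ONE are harmless: the norm of `w` is greater than `b`, and
either `w` does not lie over `S` and is unramified in `F'`, or the decomposition groups of `w` in `F'/F`
are `p`-groups.

So if Tate's formula holds for `X_F` for all special `F`, then it holds for `X` and for all `X_F`.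
-/

set_option autoImplicit false

namespace Pool.Agent.Results.MP_223b32_ag.OneBadPlace

open NumberField IsDedekindDomain Pool.Agent.H91.OP
open Pool.Agent.Q5.BR Pool.Agent.Q5.VL Pool.Agent.W353.NF Pool.Agent.W401.Cheb
open scoped Pointwise

/-- `p`-hyperelementary groups: a cyclic normal subgroup `C` of order prime to `p`, such that the
quotient by `C` is a `p`-group. -/
def Hyperelementary (p : ℕ) (G : Type) [Group G] : Prop :=
  ∃ C : Subgroup G, C.Normal ∧ IsCyclic C ∧ (Nat.card C).Coprime p ∧
    ∀ g : G, ∃ k : ℕ, g ^ p ^ k ∈ C

section fields

variable {F : Type} [Field F] [NumberField F] (F' : Type) [Field F'] [NumberField F'] [Algebra F F']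

/-- The inertia groups of the prime `w` of `F` in the Galois extension `F'` are trivial. -/
def Unramified (w : HeightOneSpectrum (𝓞 F)) : Prop :=
  ∀ W : HeightOneSpectrum (𝓞 F'), W.asIdeal.under (𝓞 F) = w.asIdeal →
    ∀ σ : Gal(F'/F), (∀ x : 𝓞 F', σ • x - x ∈ W.asIdeal) → σ = 1

/-- The decomposition groups of the prime `w` of `F` in the Galois extension `F'` are `p`-groups. -/
def DecomposesInPGroup (p : ℕ) (w : HeightOneSpectrum (𝓞 F)) : Prop :=
  ∀ W : HeightOneSpectrum (𝓞 F'), W.asIdeal.under (𝓞 F) = w.asIdeal →
    ∀ σ : Gal(F'/F), σ • W.asIdeal = W.asIdeal → ∃ k : ℕ, σ ^ p ^ k = 1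

/-- The prime `w` of `F ⊇ K` lies over the set `S` of primes of `K`. -/
def LiesOver {K : Type} [Field K] [NumberField K] [Algebra K F] (S : Set (HeightOneSpectrum (𝓞 K)))
    (w : HeightOneSpectrum (𝓞 F)) : Prop :=
  ∃ v ∈ S, w.asIdeal.under (𝓞 K) = v.asIdeal

/-- The prime `w` of `F` is exceptional: its norm is at most `b`, or its decomposition groups in `F'` are
not `p`-groups and it lies over `S` or ramifies in `F'`. -/
def Exceptional {K : Type} [Field K] [NumberField K] [Algebra K F] (S : Set (HeightOneSpectrum (𝓞 K)))
    (b p : ℕ) (w : HeightOneSpectrum (𝓞 F)) : Prop :=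
  Ideal.absNorm w.asIdeal ≤ b ∨ ((¬ Unramified F' w ∨ LiesOver S w) ∧ ¬ DecomposesInPGroup F' p w)

end fields

/-- Special number fields `F ⊇ K`, for a set `S` of primes of `K`, a bound `b` and an extension `T` of
`K`: for some prime number `p` there is a Galois extension `F'` of `F` with a `p`-hyperelementary group
which contains `T`, such that at most one prime of `F` is exceptional. -/
def Special {K : Type} [Field K] [NumberField K] (S : Set (HeightOneSpectrum (𝓞 K))) (b : ℕ)
    (T : Type) [Field T] [Algebra K T] (F : Type) [Field F] [NumberField F] [Algebra K F] : Prop :=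
  ∃ p : ℕ, p.Prime ∧ ∃ (F' : Type) (_ : Field F') (_ : NumberField F') (_ : Algebra F F'),
    IsGalois F F' ∧ Hyperelementary p Gal(F'/F) ∧
    (∃ j : T →+* F', ∀ x : K, j (algebraMap K T x) = algebraMap F F' (algebraMap K F x)) ∧
    ∀ w w' : HeightOneSpectrum (𝓞 F),
      Exceptional F' S b p w → Exceptional F' S b p w' → w = w'

/-- Tate's formula over `F` from the fields in a relation. -/
theorem tate_of_relation {K : Type} [Field K] [NumberField K] {F : Type} [Field F] [NumberField F]
    [Algebra K F] {ι : Type} [Fintype ι]
    {Y : ι → Ext F} [∀ j, Algebra K (Y j).F] [∀ j, IsScalarTower K F (Y j).F] {n : ι → ℤ}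
    (hrel : ∀ σ : GK F, ∑ j, n j * (fixn F (Y j).F σ : ℤ) = 1)
    {q : ℕ} {X : Set (MvPolynomial (Fin q) (𝓞 K))} {d m N : ℕ} (hmd : m ≤ d)
    {V : Type} [AddCommGroup V] [Module ℚ V] [FiniteDimensional ℚ V]
    {ρ : Representation ℚ Gal(AlgebraicClosure K/K) V}
    (h : ∀ j, Tate X d m N ρ (Y j).F) : Tate X d m N ρ F := by
  have h1 := rank_relation_up (F := F) ρ (Y := Y) (n := n) (m := 1) hrel
    (fun _ _ => inferInstance)
  unfold Tate
  rw [poleOrder_iff]
  intro T B hB
  have h2 := order_rel (K₀ := K) (K := F) (Y := Y) (nn := n) (X := X) (d := d)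
    (i := 2 * m) (N := N) hrel (by omega) (fun j => (Pool.Agent.Q5.VL.rk ρ (Y j).F : ℤ))
    (fun j => by
      have h3 := h j
      unfold Tate at h3
      rw [rank_eq] at h3
      exact poleOrder_iff.1 h3) hB
  rw [h1, one_mul] at h2
  rw [rank_eq]
  exact h2

/-- **Tate's conjecture on the pole at the edge: number fields with at most one exceptional prime
suffice.**

1. For every number field `K`, every finite set `S` of primes of `K`, every bound `b` and every finite
extension `T` of `K` there are finitely many special number fields `F_j ⊇ K` and integers `a_j` such that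
`∑ a_j · fixedEmbeddings F_j σ = 1` for all `σ` in the absolute Galois group of `K`, and for ALL
varieties `X` over `K` and all `V`: `rank over K = ∑ a_j (rank over F_j)`; if the pole of
`L(H^{2m}(X_{F_j}), s)` has the order `r_j` for all `j`, then the pole of `L(H^{2m}(X), s)` has the order
`∑ a_j r_j`.

2. If Tate's formula holds for `X_F` for all special finite extensions `F` of `K` (for one choice of `S`,
`b`, `T`), then it holds for `X_F` for all finite extensions `F` of `K`, in particular for `X`. -/
theorem result :
    (∀ (K : Type) [Field K] [NumberField K] (S : Set (HeightOneSpectrum (𝓞 K))), S.Finite →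
      ∀ (b : ℕ) (T : Type) [Field T] [NumberField T] [Algebra K T],
      ∃ (ι : Type) (_ : Fintype ι) (Y : ι → Pool.Agent.Q5.BR.Ext K) (a : ι → ℤ),
        (∀ j, Special S b T (Y j).F) ∧
        CharacterRelation Y a ∧ RankRelation Y a ∧ PoleRelation Y a) ∧
    (∀ (K : Type) [Field K] [NumberField K] (q : ℕ) (X : Set (MvPolynomial (Fin q) (𝓞 K)))
      (d m N : ℕ), m ≤ d → ∀ (V : Type) [AddCommGroup V] [Module ℚ V] [FiniteDimensional ℚ V]
        (ρ : Representation ℚ Gal(AlgebraicClosure K/K) V)
        (S : Set (HeightOneSpectrum (𝓞 K))), S.Finite →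
        ∀ (b : ℕ) (T : Type) [Field T] [NumberField T] [Algebra K T],
        (∀ (F : Type) [Field F] [NumberField F] [Algebra K F], Special S b T F →
          Tate X d m N ρ F) →
        ∀ (F : Type) [Field F] [NumberField F] [Algebra K F], Tate X d m N ρ F) := by
  refine ⟨fun K _ _ S hS b T _ _ _ => ?_, ?_⟩
  · obtain ⟨ι, _, Y, a, h1, h3⟩ := Pool.Agent.H46.OP.one_bad_place_relation K S hS b T
    exact ⟨ι, inferInstance, Y, a, fun j => h1 j, relations h3⟩
  · intro K _ _ q X d m N hmd V _ _ _ ρ S hS b T _ _ _ h F _ _ _
    obtain ⟨ι, _, Y, a, h1, h3⟩ := Pool.Agent.H46.OP.one_bad_place_relation_over K S hS b T F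
    let _ : ∀ j, Algebra K (Y j).F := fun j =>
      ((algebraMap F (Y j).F).comp (algebraMap K F)).toAlgebra
    have : ∀ j, IsScalarTower K F (Y j).F := fun j =>
      IsScalarTower.of_algebraMap_eq fun x => rfl
    exact tate_of_relation (Y := Y) h3 hmd fun j => h (Y j).F (h1 j)

end Pool.Agent.Results.MP_223b32_ag.OneBadPlace
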