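import Pool.Agent.H91.OP.Base

/-!
# The pole at the edge: number fields with at most one small prime and without automorphisms suffice

`X` is a smooth projective variety of dimension `d` over a number field `K`, `0 ≤ m ≤ d`, and `V` is the
space `A^m(X) ⊗ ℚ` of the classes of the algebraic cycles of codimension `m` over the algebraic closure,
with the action of the absolute Galois group of `K`, or any finite dimensional representation of this
group. For a number field `F ⊇ K` the rank over `F` is the dimension of the space of the vectors fixed by
the absolute Galois group of `F`, and the order of the pole of `L(H^{2m}(X_F), s)` at `m + 1` is the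
integer `r` such that `(s - m - 1)^r L(s)` has a finite nonzero limit as `s → m + 1` along the reals, from
the right; the Euler product is taken over the primes outside an arbitrary finite set, and no
continuation is presupposed.

For every `K` and `b` there is a relation with coefficient `1` on the right between the permutation
characters of the absolute Galois group of `K` on the embeddings of number fields `F_j ⊇ K` which have no
automorphisms and at most one prime ideal of norm `≤ b` (`RigidOneSmall b`). (This relation is taken from
`Pool.Agent.H26.K4` and `Pool.Agent.H46.SP`, where it is used for `K`-theory and for elliptic curves.)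
The Euler product of `L(H^{2m}(X), s)` is, up to finitely many Euler factors, the product of the powers
`L(H^{2m}(X_{F_j}), s)^{a_j}`, and the logarithm of this identity on the real axis gives the relation
between the orders of the poles, without any hypothesis on the continuation.
-/

set_option autoImplicit false

namespace Pool.Agent.Results.MP_223b32_ag.OneSmallPrime

open Pool.Agent.H91.OP Pool.Agent.Q5.BR

/-- **Tate's conjecture on the pole at the edge: number fields without automorphisms and with at most
one small prime suffice.**

1. For every number field `K` and every `b` there are finitely many number fields `F_j ⊇ K`, without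
automorphisms and with at most one prime ideal of norm `≤ b`, and integers `a_j` such that
`∑ a_j · fixedEmbeddings F_j σ = 1` for all `σ` in the absolute Galois group of `K`, and for ALL
varieties `X` over `K` and all `V`: `rank over K = ∑ a_j (rank over F_j)`; if the pole of
`L(H^{2m}(X_{F_j}), s)` has the order `r_j` for all `j`, then the pole of `L(H^{2m}(X), s)` has the order
`∑ a_j r_j`.

2. If Tate's formula holds for `X_F` for all finite extensions `F` of `K` without automorphisms and with
at most one prime ideal of norm `≤ b`, then it holds for `X_F` for all finite extensions `F` of `K`.

3. Let `𝒱` be a class of varieties over number fields which is closed under the extension of the base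
field, for instance all smooth projective varieties with `V = A^m(X) ⊗ ℚ`. If for one `b` the conjecture
holds for the varieties in `𝒱` over all number fields without automorphisms and with at most one prime
ideal of norm `≤ b`, then it holds for the varieties in `𝒱` over all number fields. -/
theorem result :
    (∀ (K : Type) [Field K] [NumberField K] (b : ℕ),
      ∃ (ι : Type) (_ : Fintype ι) (Y : ι → Ext K) (a : ι → ℤ),
        (∀ j, RigidOneSmall b (Y j).F) ∧
        CharacterRelation Y a ∧ RankRelation Y a ∧ PoleRelation Y a) ∧
    (∀ (K : Type) [Field K] [NumberField K] (q : ℕ)
      (X : Set (MvPolynomial (Fin q) (NumberField.RingOfIntegers K))) (d m N : ℕ), m ≤ d →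
      ∀ (V : Type) [AddCommGroup V] [Module ℚ V] [FiniteDimensional ℚ V]
        (ρ : Representation ℚ Gal(AlgebraicClosure K/K) V) (b : ℕ),
        TateOver X d m N ρ (RigidOneSmall b) → TateOver X d m N ρ fun _ _ _ => True) ∧
    (∀ 𝒱 : VarietyClass, ClosedUnderExtension 𝒱 → ∀ b : ℕ,
      (∀ (F : Type) [Field F] [NumberField F], RigidOneSmall b F → TateFor 𝒱 F) →
      ∀ (K : Type) [Field K] [NumberField K], TateFor 𝒱 K) := by
  refine ⟨fun K _ _ b => ?_, ?_, ?_⟩
  · obtain ⟨ι, _, Y, a, hS, hrel⟩ := exists_relation K b
    exact ⟨ι, inferInstance, Y, a, hS, relations hrel⟩
  · intro K _ _ q X d m N hmd V _ _ _ ρ b h F _ _ _ _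
    exact tate_of_few hmd h F
  · intro 𝒱 h𝒱 b h K _ _
    exact tateFor_of_few h𝒱 b h K

end Pool.Agent.Results.MP_223b32_ag.OneSmallPrime
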