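import Pool.Agent.H11.HS.Main

/-!
# The analytic Tate conjecture for a positive proportion of all hypersurfaces over a function field

All hypersurfaces of given degree and even dimension over the function field of a variety `Y` of positive
dimension over a finite field, with bounded coefficients.
-/

set_option autoImplicit false

open MvPolynomial

namespace Pool.Agent.Results.MP_223b32_ag.PositiveProportionHypersurfaces

open Pool.Agent.H11.HS.Stm

/-- **A positive proportion of all the hypersurfaces of degree `d ≥ 3` and dimension `2 j` over `k(Y)` have
a smooth specialisation at a closed point of `Y` and are settled at a closed point of `Y` outside a given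
closed subset.** Here `k` is a finite field and `Y = Spec A` is a variety of positive dimension over
`k`; so `k(Y)` is an arbitrary finitely generated field of positive characteristic which is not finite. -/
theorem result {k : Type} [Field k] [Finite k] {A : Type} [CommRing A] [IsDomain A] [Algebra k A]
    [Algebra.FiniteType k A] (hA : ¬ Module.Finite k A) {j d : ℕ} (hd : 3 ≤ d) {a₀ : A} (ha₀ : a₀ ≠ 0) :
    ∃ M : ℕ, ∃ H₀ : Submodule k A, Module.Finite k H₀ ∧ ∀ H : Submodule k A, H₀ ≤ H →
      Module.Finite k H → (forms H (2 * j + 1) d).Finite ∧
        (forms H (2 * j + 1) d).ncard ≤ M * {G | G ∈ forms H (2 * j + 1) d ∧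
          ∃ c c' : MaximalSpectrum A, a₀ ∉ c.asIdeal ∧ Settled j c G ∧ Smooth (spec c' G)}.ncard :=
  Pool.Agent.H11.HS.main hA hd ha₀

end Pool.Agent.Results.MP_223b32_ag.PositiveProportionHypersurfaces
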