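import Pool.Agent.H39.TP.Main

/-!
# The pole at the edge: three primitive number fields suffice

`X` is a smooth projective variety of dimension `d` over a number field `K`, `0 ≤ m ≤ d`, and `V` is the
space `A^m(X) ⊗ ℚ` of the classes of the algebraic cycles of codimension `m` over the algebraic closure,
with the action of the absolute Galois group of `K`, or any finite dimensional representation of this
group. For a number field `F ⊇ K` the rank over `F` is the dimension of the space of the vectors fixed by
the absolute Galois group of `F`, and the order of the pole of `L(H^{2m}(X_F), s)` at `m + 1` is the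
integer `r` such that `(s - m - 1)^r L(s)` has a finite nonzero limit as `s → m + 1` along the reals, from
the right; the Euler product is taken over the primes outside an arbitrary finite set, and no
continuation is presupposed.

For an odd number `r` and a permutation `g` of `2r` points let `s_k(g)` be the number of the
`g`-invariant sets of `k` points and `p(g)` the number of the `g`-invariant partitions into two blocks
of `r` points. Then `1 = p(g) + s_1(g) - s_2(g) + ⋯ - s_{r-1}(g)`, and the stabilizers of the `k`-sets and
of these partitions are maximal subgroups of the symmetric group. So in an extension `L / K` with group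
`S_{2r}` Tate's formula for `X` is decided by `r` fields `F_k` without fields strictly between `K` and
`F_k`: for `r = 3` by three fields, of degrees `10`, `6` and `15`. For every `r` there are such
extensions `L`, in which in addition any given primes and the real places of `K` split completely (for
`K = ℚ` the `F_k` are totally real fields without proper subfields).

(The relation of the fields is the one of our `MP_0d9be2_nt.PrimitiveFields`; the transfer of relations to
poles along the real axis is the one of our `MP_223b32_ag.OneSmallPrime`.)
-/

set_option autoImplicit false

namespace Pool.Agent.Results.MP_223b32_ag.PrimitiveFields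

open NumberField IsDedekindDomain Pool.Agent.H91.OP Pool.Agent.Q5.BR Pool.Agent.H67.Primitive

/-- **Tate's conjecture on the pole at the edge: primitive number fields suffice.** Let `r ≥ 3` be odd.

1. For every number field `K` and every finite set `S` of primes of `K` there are a Galois extension
`L / K` with group `S_{2r}` and `r` different intermediate fields `F_k` of degrees
`(2r choose r) / 2` (`k = 0`) and `(2r choose k)` (`1 ≤ k < r`), without fields strictly between `K` and
`F_k`, in which the primes in `S` and the real places of `K` split completely, such that for ALL
varieties `X` over `K` and all `V`: `rank over K = ∑ exponent k · (rank over F_k)`; if the pole of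
`L(H^{2m}(X_{F_k}), s)` has the order `r_k` for all `k`, then the pole of `L(H^{2m}(X), s)` has the order
`∑ exponent k · r_k`; and if Tate's formula holds for `X_{F_k}` for all `k`, then it holds for `X`.

2. Let `X / K` be given, and a finite set `S F` of primes of `F` for all number fields `F ⊇ K`. If Tate's
formula holds for `X_{F'}` for all special extensions `F'` (for `S F`) of number fields `F` with
`K ⊆ F ⊆ F'`, then it holds for `X_F` for all finite extensions `F` of `K`.

3. Let `𝒱` be a class of varieties over number fields which is closed under the extension of the base
field, for instance all smooth projective varieties with `V = A^m(X) ⊗ ℚ`, and `S F` a finite set of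
primes of `F` for all number fields `F`. If the conjecture holds for the varieties in `𝒱` over all special
extensions `F'` (for `S F`) of number fields `F`, then it holds for the varieties in `𝒱` over all number
fields. -/
theorem result (r : ℕ) (hr : Odd r) (h3 : 3 ≤ r) :
    -- (1) one extension with symmetric group
    (∀ (K : Type) [Field K] [NumberField K] (S : Finset (HeightOneSpectrum (𝓞 K))),
      ∃ (L : Type) (_ : Field L) (_ : NumberField L) (_ : Algebra K L)
        (F : Fin r → IntermediateField K L), PrimitiveRelation r S F ∧
        RankRelation (fun k => (⟨F k⟩ : Ext K)) exponent ∧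
        PoleRelation (fun k => (⟨F k⟩ : Ext K)) exponent ∧
        ∀ (q : ℕ) (X : Set (MvPolynomial (Fin q) (𝓞 K))) (d m N : ℕ), m ≤ d →
          ∀ (V : Type) [AddCommGroup V] [Module ℚ V] [FiniteDimensional ℚ V]
            (ρ : Representation ℚ Gal(AlgebraicClosure K/K) V),
            (∀ k, Tate X d m N ρ (F k)) → Tate X d m N ρ K) ∧
    -- (2) all extensions
    (∀ (K : Type) [Field K] [NumberField K] (q : ℕ) (X : Set (MvPolynomial (Fin q) (𝓞 K)))
      (d m N : ℕ), m ≤ d → ∀ (V : Type) [AddCommGroup V] [Module ℚ V] [FiniteDimensional ℚ V]
        (ρ : Representation ℚ Gal(AlgebraicClosure K/K) V)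
        (S : ∀ (F : Type) [Field F] [NumberField F] [Algebra K F],
          Finset (HeightOneSpectrum (𝓞 F))),
        (∀ (F F' : Type) [Field F] [NumberField F] [Algebra K F] [Field F'] [NumberField F']
          [Algebra K F'] [Algebra F F'] [IsScalarTower K F F'], SpecialExtension r (S F) F' →
            Tate X d m N ρ F') →
        ∀ (F : Type) [Field F] [NumberField F] [Algebra K F], Tate X d m N ρ F) ∧
    -- (3) classes of varieties
    (∀ 𝒱 : VarietyClass, ClosedUnderExtension 𝒱 →
      ∀ (S : ∀ (F : Type) [Field F] [NumberField F], Finset (HeightOneSpectrum (𝓞 F))),
        (∀ (F F' : Type) [Field F] [NumberField F] [Field F'] [NumberField F'] [Algebra F F'],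
          SpecialExtension r (S F) F' → TateFor 𝒱 F') →
        ∀ (K : Type) [Field K] [NumberField K], TateFor 𝒱 K) := by
  refine ⟨fun K _ _ S => ?_, ?_, ?_⟩
  · obtain ⟨L, _, _, _, F, hF⟩ := exists_primitive_relation K hr h3 S
    have hrel := relations (Y := fun k => (⟨F k⟩ : Ext K)) (a := exponent) fun σ => hF.fixn σ
    refine ⟨L, inferInstance, inferInstance, inferInstance, F, hF, hrel.2.1, hrel.2.2, ?_⟩
    intro q X d m N hmd V _ _ _ ρ h
    exact Pool.Agent.H39.TP.tate_of_relation (Y := fun k => (⟨F k⟩ : Ext K))
      (fun σ => hF.fixn σ) hmd h
  · intro K _ _ q X d m N hmd V _ _ _ ρ S h F _ _ _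
    exact Pool.Agent.H39.TP.tate_all hr h3 S hmd h F
  · intro 𝒱 h𝒱 S h K _ _
    exact Pool.Agent.H39.TP.tateFor_all hr h3 S h𝒱 h K

end Pool.Agent.Results.MP_223b32_ag.PrimitiveFields
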